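import Pool.Agent.Q187.ZD.DS

/-!
# If the double shuffle relations are asymptotically complete, they are complete

`H0 p` is the weight `p` part of `ℚ + x ℚ⟨x, y⟩ y`, `RDS p` the span of the regularized double
shuffle elements of weight `p`, `Ideal p` the weight `p` part of the ideal generated by them and
`Z` the map to the real numbers. If in one weight `k` some relation does not follow from the double
shuffle relations, then for all `N ≥ k` at least `d_(N-k)` independent relations of weight `N` are
missing. So all relations in all weights follow from the double shuffle relations if this is true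
in infinitely many weights, or if the number of missing relations is `o(d_N)` along some sequence
of weights.
-/

set_option autoImplicit false

open Module

namespace Pool.Agent.Results.MP_154526_nt.AsymptoticallyComplete

open Pool.Agent.Q187.ZD (IsZagier)
open Pool.Agent.Q187.ZD.DS

theorem result (d : ℕ → ℕ) (hd : IsZagier d) (E : Type) [CommRing E] [Algebra ℚ E]
    (gr : ℕ → Submodule ℚ E) (q : W →ₗ[ℚ] E) (per : E →ₐ[ℚ] ℝ) (h : IsFormalAlgebra gr q per)
    (hb : Bounds d gr) :
    (∀ k, ¬ Conjecture k → ∀ N, k ≤ N →
      finrank ℚ ((H0 N).map Z) + finrank ℚ (gr (N - k)) ≤ finrank ℚ (gr N)) ∧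
    ((∀ p, Conjecture p) ↔ {N | Conjecture N}.Infinite) ∧
    ({N | Linear N}.Infinite → ∀ p, Conjecture p) ∧
    ((∀ p, Conjecture p) ↔ ∀ ε : ℝ, 0 < ε → ∀ N₀, ∃ N ≥ N₀,
      (finrank ℚ (gr N) : ℝ) ≤ finrank ℚ ((H0 N).map Z) + ε * d N) :=
  ⟨fun _ hk _ hN => missing h hk hN, conj_infinite h hd hb,
    fun hi => (conj_infinite h hd hb).2 (hi.mono fun _ hN => conj_of_linear hN),
    conj_liminf h hd hb⟩

end Pool.Agent.Results.MP_154526_nt.AsymptoticallyComplete
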