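import Pool.Agent.Q138.PS.XL
import Pool.Agent.Q138.PS.VY
import Pool.Agent.Q138.AI.R154526

/-!
# Double shuffle relations and polylogarithms at `1/t` and `1 - 1/t`, `t` close to `c n^j α^n`

For each weight `p` let `formal(p)` be the dimension of the formal space of weight `p` modulo the (regularized) double shuffle
elements and `missing(p)` the number of independent relations between multiple zeta values of weight `p` that are not
combinations of double shuffle elements; `Linear p` says that there is none. Let `V_N(t)` be the rational span of the products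
`Li_s(1 - 1/t) Li_r(1/t)` with `|s| + |r| = N`.

For almost every real number `α > 1` the following holds. The properties `A` of integers named below are RARE along the powers of
`α`: there is `κ > 0` such that for all algebraic numbers `c > 0`, all integers `j`, all real `D` and all large `n`, NO integer
`t ≥ b` (`b = 2` or `3`) with `|t - c n^j α^n| ≤ D (c n^j α^n)^κ` has the property `A`.

* `dim V_M(t) + ∑_{k ≤ M} 2^k missing(M-k) ≠ ∑_{k ≤ M} 2^k formal(M-k)` for some `M ≤ N` is rare, for each `N`;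
* all linear relations between multiple zeta values of each weight at most `N` come from the double shuffle relations if and only
  if `dim V_N(t) ≠ ∑_{k ≤ N} 2^k formal(N-k)` is rare;
* for the single weight `p + 1` this holds if and only if `dim V_{p+1}(t) ≠ formal(p+1) + 2 dim V_p(t)` is rare.
-/

set_option autoImplicit false

namespace Pool.Agent.Results.MP_154526_nt.LinearityNearPowers

open Filter Module MeasureTheory Pool.Agent.Q138.PS Pool.Agent.Q138.AI.R154526

/-- **Theorem.** -/
theorem result :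
    ∀ᵐ α : ℝ, 1 < α →
      (∀ N : ℕ, RarePow α 3 fun n => ¬ ∀ M ≤ N, finrank ℚ (V n M) + ∑ k ∈ Finset.range (M + 1), 2 ^ k * missing (M - k) =
        ∑ k ∈ Finset.range (M + 1), 2 ^ k * formal (M - k)) ∧
      (∀ N : ℕ, (∀ p ≤ N, Pool.Agent.Q187.ZD.DS.Linear p) ↔
        RarePow α 3 fun n => ¬ finrank ℚ (V n N) = ∑ k ∈ Finset.range (N + 1), 2 ^ k * formal (N - k)) ∧
      ∀ p : ℕ, Pool.Agent.Q187.ZD.DS.Linear (p + 1) ↔
        RarePow α 3 fun n => ¬ finrank ℚ (V n (p + 1)) = formal (p + 1) + 2 * finrank ℚ (V n p) := by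
  obtain ⟨h1', -, h3, h4, h5⟩ := Pool.Agent.Q138.AI.R154526.result
  have hae := rarePow_ae (ι := ℕ ⊕ ℕ)
    (Sum.elim (fun N n => ¬ ∀ M ≤ N, finrank ℚ (V n M) + ∑ k ∈ Finset.range (M + 1), 2 ^ k * missing (M - k) =
        ∑ k ∈ Finset.range (M + 1), 2 ^ k * formal (M - k))
      (fun p n => ¬ finrank ℚ (V n (p + 1)) = formal (p + 1) + 2 * finrank ℚ (V n p)))
  filter_upwards [hae] with α hg hα
  have h1 := hg hα
  have hA : ∀ N : ℕ, RarePow α 3 fun n => ¬ ∀ M ≤ N,
      finrank ℚ (V n M) + ∑ k ∈ Finset.range (M + 1), 2 ^ k * missing (M - k) =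
        ∑ k ∈ Finset.range (M + 1), 2 ^ k * formal (M - k) := fun N => h1 (Sum.inl N) 3 (h4 N)
  have hs : ∀ (f : ℕ → ℕ) (p : ℕ), ∑ k ∈ Finset.range (p + 1 + 1), 2 ^ k * f (p + 1 - k) =
      f (p + 1) + 2 * ∑ k ∈ Finset.range (p + 1), 2 ^ k * f (p - k) := by
    intro f p
    rw [Finset.sum_range_succ', Finset.mul_sum]
    have e1 : ∑ k ∈ Finset.range (p + 1), 2 ^ (k + 1) * f (p + 1 - (k + 1)) =
        ∑ k ∈ Finset.range (p + 1), 2 * (2 ^ k * f (p - k)) := by
      refine Finset.sum_congr rfl fun k _ => ?_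
      rw [Nat.add_sub_add_right, pow_succ]
      ring
    rw [e1]
    simp only [_root_.pow_zero, one_mul, Nat.sub_zero]
    ring
  refine ⟨hA, fun N => ⟨fun h => ?_, fun h => ?_⟩, fun p => ⟨fun h => h1 (Sum.inr p) 3 ((h5 p).1 h), fun h => ?_⟩⟩
  · refine (hA N).mono le_rfl fun t _ ht hall => ht ?_
    rw [← hall N le_rfl, Finset.sum_eq_zero (fun k _ => by
      rw [((h1' (N - k)).2).2 (h (N - k) (Nat.sub_le _ _)), mul_zero]), add_zero]
  · obtain ⟨n, hn, hn'⟩ := h.exists_not hα
    exact (h3 N).2 ⟨n, by omega, not_not.1 hn'⟩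
  · obtain ⟨n, -, hn⟩ := ((hA (p + 1)).or h hα).exists_not hα
    push Not at hn
    obtain ⟨hn1, hn2⟩ := hn
    have e1 := hn1 (p + 1) le_rfl
    have e2 := hn1 p (by omega)
    rw [hs missing p, hs formal p] at e1
    refine ((h1' (p + 1)).2).1 ?_
    omega

end Pool.Agent.Results.MP_154526_nt.LinearityNearPowers
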